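import Pool.Agent.Results.MP_92974c_pr.SquareBeatsDisc
import Pool.Agent.Y379.HA.Fam

set_option autoImplicit false

/-!
# Hall's conjecture in the strong form fails for all planar sets near a square

`F S φ` is the probability that the largest angle of a random triangle in `S` is at most `φ`. The starting
file `SquareBeatsDisc` shows that the unit square has a larger `F` than the disc for all `φ` slightly above
`π / 3`. Here this is shown, for one and the same interval of angles, for all (null measurable, in
particular all convex) sets which are close to the square in measure, in particular for all convex sets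
between two concentric squares, and for the superellipses of large even degree.
-/

open MeasureTheory Set Filter Topology
open scoped ENNReal NNReal Real

namespace Pool.Agent.Results.MP_92974c_pr.NeighbourhoodOfSquare

open Pool.Agent.H532R3.Hall

/-- the square `[-η, 1 + η]²` -/
def box (η : ℝ) : Set (EuclideanSpace ℝ (Fin 2)) := {x | ∀ i, -η ≤ x i ∧ x i ≤ 1 + η}

/-- the superellipse `(2 x - 1) ^ p + (2 y - 1) ^ p ≤ 1` of degree `p` -/
def superellipse (p : ℕ) : Set (EuclideanSpace ℝ (Fin 2)) :=
  {x | (2 * x 0 - 1) ^ p + (2 * x 1 - 1) ^ p ≤ 1}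

/-- **Neighbourhoods of the square.** There are `δ, ε > 0` such that for all `φ` with
`π / 3 < φ < π / 3 + δ` and the unit disc `B`:

(1) `F_S(φ) > F_B(φ)` for every planar (null measurable) set `S` whose symmetric difference with the unit
square has area at most `ε`;

(2) `F_S(φ) > F_B(φ)` for every convex set `S` with `[ε, 1 - ε]² ⊆ S ⊆ [-ε, 1 + ε]²` (these sets are
bounded and have interior points);

(3) for every even `p ≥ 1 / (2 ε)` the superellipse of degree `p` is a bounded convex set with interior
points, and `F_S(φ) > F_B(φ)` for it. -/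
theorem result : ∃ δ ε : ℝ, 0 < δ ∧ 0 < ε ∧ ∀ φ : ℝ, π / 3 < φ → φ < π / 3 + δ →
    (∀ S : Set (EuclideanSpace ℝ (Fin 2)), NullMeasurableSet S volume →
      volume (symmDiff S unitSquare) ≤ ENNReal.ofReal ε →
      F (Metric.ball (0 : EuclideanSpace ℝ (Fin 2)) 1) φ < F S φ) ∧
    (∀ S : Set (EuclideanSpace ℝ (Fin 2)), Convex ℝ S → box (-ε) ⊆ S → S ⊆ box ε →
      Bornology.IsBounded S ∧ (interior S).Nonempty ∧
      F (Metric.ball (0 : EuclideanSpace ℝ (Fin 2)) 1) φ < F S φ) ∧
    (∀ p : ℕ, Even p → 1 / (2 * ε) ≤ p →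
      Convex ℝ (superellipse p) ∧ Bornology.IsBounded (superellipse p) ∧
      (interior (superellipse p)).Nonempty ∧
      F (Metric.ball (0 : EuclideanSpace ℝ (Fin 2)) 1) φ < F (superellipse p) φ) := by
  obtain ⟨ε₀, hε₀, h⟩ := Y379.HA.robust2
  rw [Filter.eventually_iff, mem_nhdsGT_iff_exists_Ioo_subset] at h
  obtain ⟨u, hu, hsub⟩ := h
  rw [Set.mem_Ioi] at hu
  let ε : ℝ := min (1 / 4) (ε₀ / 8)
  have hε : 0 < ε := lt_min (by norm_num) (by positivity)
  have e1 : ε ≤ 1 / 4 := min_le_left _ _
  have e2 : ε ≤ ε₀ / 8 := min_le_right _ _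
  refine ⟨u - π / 3, ε, by linarith, hε, fun φ h1 h2 => ?_⟩
  have hφ := hsub (show φ ∈ Ioo (π / 3) u from ⟨h1, by linarith⟩)
  have hconv : ∀ S : Set (EuclideanSpace ℝ (Fin 2)), Convex ℝ S → box (-ε) ⊆ S → S ⊆ box ε →
      Bornology.IsBounded S ∧ (interior S).Nonempty ∧
      F (Metric.ball (0 : EuclideanSpace ℝ (Fin 2)) 1) φ < F S φ := by
    intro S hS hl hu'
    refine ⟨(Y379.HA.box_bounded ε).subset hu', (Y379.HA.box_interior (by linarith)).mono (interior_mono hl), ?_⟩
    apply hφ S (hS.nullMeasurableSet volume)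
    refine (Y379.HA.sandwich_vol hε (by linarith) hl hu').trans (ENNReal.ofReal_le_ofReal (by linarith))
  refine ⟨fun S hS hsd => ?_, hconv, fun p hp hpe => ?_⟩
  · exact hφ S hS (hsd.trans (ENNReal.ofReal_le_ofReal (by linarith)))
  · have hp1 : 1 ≤ 2 * ε * p := by
      rw [div_le_iff₀ (by positivity)] at hpe
      linarith
    have hp0 : p ≠ 0 := by
      rintro rfl
      simp at hp1
      linarith
    have hc := Y379.HA.se_convex hp
    have hQ : superellipse p ⊆ box ε := by
      intro x hx i
      have := Y379.HA.se_sub hp hp0 hx i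
      exact ⟨by linarith [this.1], by linarith [this.2]⟩
    obtain ⟨b1, b2, b3⟩ := hconv (superellipse p) hc (Y379.HA.se_sup hp hε (by linarith) hp1) hQ
    exact ⟨hc, b1, b2, b3⟩

end Pool.Agent.Results.MP_92974c_pr.NeighbourhoodOfSquare
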